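import Pool.Agent.W559.Wr.StmR

/-!
# Invariance of the relative notion of a smooth projective model under isomorphism
-/

set_option autoImplicit false

universe u

namespace Pool.Agent.W469.WR.IsoR

open Pool.Agent.W559.Wr

theorem isoR : IsoRStm.{u} := by
  intro k F F' _ _ _ _ _ φ A h
  obtain ⟨l, z, hz, hs, ht⟩ := h
  have hr : ∀ i, (Set.range fun j => φ (z j) / φ (z i)) = φ '' (Set.range fun j => z j / z i) := by
    intro i
    rw [← Set.range_comp]
    congr 1
    funext j
    simp
  refine ⟨l, fun i => φ (z i), fun i => by simpa using hz i, fun i => ?_, ?_⟩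
  · have h1 : A.map (φ : F →ₐ[k] F') ⊔
        Algebra.adjoin k (Set.range fun j => φ (z j) / φ (z i))
        = (A ⊔ Algebra.adjoin k (Set.range fun j => z j / z i)).map (φ : F →ₐ[k] F') := by
      rw [hr i, Algebra.map_sup, AlgHom.map_adjoin]
      rfl
    rw [h1]
    have := hs i
    exact Algebra.Smooth.of_equiv
      (φ.subalgebraMap (A ⊔ Algebra.adjoin k (Set.range fun j => z j / z i)))
  · have h0 : (((A.map (φ : F →ₐ[k] F') : Subalgebra k F') : Set F') ∪
        Set.range fun j => φ (z j) / φ (z 0)) =
        (φ : F →ₐ[k] F') '' ((A : Set F) ∪ Set.range fun j => z j / z 0) := by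
      rw [hr 0, Set.image_union]
      rfl
    rw [h0]
    have h2 := IntermediateField.adjoin_map k ((A : Set F) ∪ Set.range fun j => z j / z 0)
      (φ : F →ₐ[k] F')
    rw [ht, ← AlgHom.fieldRange_eq_map] at h2
    have h3 : (φ : F →ₐ[k] F').fieldRange = ⊤ := by
      rw [AlgHom.fieldRange_eq_top]
      exact φ.surjective
    rw [h3] at h2
    exact h2.symm

end Pool.Agent.W469.WR.IsoR
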