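import Pool.Agent.W559.Wr.StmR
import Pool.Agent.W440.ET.Model

/-!
# An atlas without gradings gives a projective model, relative version
-/

set_option autoImplicit false
set_option linter.unusedSectionVars false

universe u

namespace Pool.Agent.W469.WR.Mb

open Pool.Agent.W559.Wr Pool.Agent.W559.Mg Pool.Agent.W559.Et Pool.Agent.H920R2

section

variable {k L K : Type u} [Field k] [Field L] [Algebra k L] [Field K] [Algebra k K]

theorem locL_le {A B : Subalgebra k L} {x y : L} (hx : x ∈ A) (hy : y ∈ B) (hxy : x * y = 1)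
    (h : B ≤ locL A x hx) : locL B y hy ≤ locL A x hx := by
  intro w hw
  obtain ⟨n, hn⟩ := mem_locL.mp hw
  obtain ⟨m, hm⟩ := mem_locL.mp (h hn)
  refine mem_locL.mpr ⟨m, ?_⟩
  have h1 : x ^ m * w = x ^ n * (x ^ m * (y ^ n * w)) := by
    have : x ^ n * y ^ n = 1 := by rw [← mul_pow, hxy, one_pow]
    calc x ^ m * w = (x ^ n * y ^ n) * (x ^ m * w) := by rw [this, one_mul]
      _ = _ := by ring
  rw [h1]
  exact A.mul_mem (A.pow_mem hx n) hm

/-- the chart -/
abbrev ch (A : Subalgebra k L) {l : ℕ} (z : Fin (l + 1) → L) (i : Fin (l + 1)) :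
    Subalgebra k L :=
  A ⊔ Algebra.adjoin k (Set.range fun n => z n / z i)

theorem le_ch (A : Subalgebra k L) {l : ℕ} (z : Fin (l + 1) → L) (i : Fin (l + 1)) :
    A ≤ ch A z i := le_sup_left

theorem mem_ch (A : Subalgebra k L) {l : ℕ} (z : Fin (l + 1) → L) (i n : Fin (l + 1)) :
    z n / z i ∈ ch A z i :=
  (le_sup_right : Algebra.adjoin k (Set.range fun n => z n / z i) ≤ ch A z i)
    (Algebra.subset_adjoin ⟨n, rfl⟩)

theorem ch_le (A : Subalgebra k L) {l : ℕ} (z : Fin (l + 1) → L) (hz : ∀ i, z i ≠ 0)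
    (i j : Fin (l + 1)) :
    ch A z j ≤ locL (ch A z i) (z j / z i) (mem_ch A z i j) := by
  refine sup_le ?_ (Algebra.adjoin_le ?_)
  · intro x hx
    refine mem_locL.mpr ⟨0, ?_⟩
    rw [pow_zero, one_mul]
    exact le_ch A z i hx
  · rintro _ ⟨n, rfl⟩
    refine mem_locL.mpr ⟨1, ?_⟩
    have h1 : (z j / z i) ^ 1 * (z n / z j) = z n / z i := by
      have := hz i
      have := hz j
      field_simp
    rw [h1]
    exact mem_ch A z i n

theorem locL_eq (A : Subalgebra k L) {l : ℕ} (z : Fin (l + 1) → L) (hz : ∀ i, z i ≠ 0)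
    (i j : Fin (l + 1)) :
    locL (ch A z j) (z i / z j) (mem_ch A z j i) =
      locL (ch A z i) (z j / z i) (mem_ch A z i j) := by
  have h1 : z j / z i * (z i / z j) = 1 := by
    have := hz i
    have := hz j
    field_simp
  have h2 : z i / z j * (z j / z i) = 1 := by rw [mul_comm]; exact h1
  exact le_antisymm (locL_le _ _ h1 (ch_le A z hz i j)) (locL_le _ _ h2 (ch_le A z hz j i))

theorem smooth_all (ι : L →ₐ[k] K) (A : Subalgebra k L) {l : ℕ} (z : Fin (l + 1) → L)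
    (hz : ∀ i, z i ≠ 0) (J : Set (Fin (l + 1)))
    (cv : ∀ V : ValuationSubring K, (∀ c ∈ A, ι c ∈ V) →
      ∃ j ∈ J, ∀ i, ι (z i) / ι (z j) ∈ V)
    (sm : ∀ j ∈ J, Algebra.Smooth k (ch A z j)) (i : Fin (l + 1)) :
    Algebra.Smooth k (ch A z i) := by
  apply smooth_of_locL
  intro Q hQ
  -- a valuation ring which contains the chart and whose maximal ideal contains `Q`
  let B : Subring K := ((ch A z i).map ι).toSubring
  let e : ch A z i ≃+* B :=
    ((Subalgebra.equivMapOfInjective (ch A z i) ι ι.injective) : _ ≃+* ((ch A z i).map ι))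
  let I : Ideal B := Q.comap (e.symm : B →+* ch A z i)
  have hI : I ≠ ⊤ := by
    have : I.IsPrime := Ideal.IsPrime.comap _
    exact this.ne_top
  obtain ⟨V, hV, hV2⟩ := Ideal.image_subset_nonunits_valuationSubring I hI
  have hVk : ∀ c ∈ A, ι c ∈ V := by
    intro c hc
    apply hV
    exact ⟨c, le_ch A z i hc, rfl⟩
  obtain ⟨j, hj, hjV⟩ := cv V hVk
  refine ⟨z j / z i, mem_ch A z i j, ?_, ?_⟩
  · intro hxQ
    have h1 : e ⟨z j / z i, mem_ch A z i j⟩ ∈ I := by
      rw [Ideal.mem_comap]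
      change e.symm (e ⟨z j / z i, mem_ch A z i j⟩) ∈ Q
      rw [e.symm_apply_apply]
      exact hxQ
    have h2 : ι (z j / z i) ∈ V.nonunits := hV2 ⟨e ⟨z j / z i, mem_ch A z i j⟩, h1, rfl⟩
    rw [ValuationSubring.mem_nonunits_iff_exists_mem_maximalIdeal] at h2
    obtain ⟨hx', h3⟩ := h2
    rw [IsLocalRing.mem_maximalIdeal, mem_nonunits_iff] at h3
    apply h3
    rw [isUnit_iff_exists_inv]
    refine ⟨⟨ι (z i) / ι (z j), hjV i⟩, ?_⟩
    apply Subtype.ext
    change ι (z j / z i) * (ι (z i) / ι (z j)) = 1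
    have h4 : ι (z i) ≠ 0 := (map_ne_zero ι).2 (hz i)
    have h5 : ι (z j) ≠ 0 := (map_ne_zero ι).2 (hz j)
    rw [map_div₀]
    field_simp
  · rw [← locL_eq A z hz i j]
    exact smooth_locL _ (sm j hj) _ _ (div_ne_zero (hz i) (hz j))

end

theorem mb : MbStm.{u} := by
  intro k K _ _ _ L 𝒜 W hW A₀ hA₀L hA₀W T _ E C H h
  classical
  obtain ⟨G, M, hG, hz1, hz2⟩ := Pool.Agent.W440.ET.core h
  have hGm : ∀ t, ∀ x ∈ G t, mo 0 x ∈ C t := by
    intro t x hx
    have : x ∈ d0 (C t) := by rw [← hG t]; exact Algebra.subset_adjoin hx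
    exact this
  let z : T ⊕ (Σ t, {x // x ∈ G t}) → K := Sum.elim (fun t => H t ^ M) (fun p => H p.1 ^ M * p.2.1)
  have hz : ∀ t i, mo 0 (z i / z (Sum.inl t)) ∈ C t := by
    intro t i
    rcases i with t' | p
    · exact hz1 t t'
    · exact hz2 p.1 p.2.1 p.2.2 t
  have hz0 : ∀ t, z (Sum.inl t) ≠ 0 := fun t => pow_ne_zero M (h.pb.H0 t)
  have hzL : ∀ i, z i ∈ L := by
    rintro (t | ⟨t, x, hx⟩)
    · exact L.toSubfield.pow_mem (h.pb.HK t) _
    · exact L.toSubfield.mul_mem (L.toSubfield.pow_mem (h.pb.HK t) _)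
        (h.pb.inF t x ⟨hGm t x hx, trivial⟩)
  have hcv : ∀ V : ValuationSubring K, (∀ x ∈ A₀, x ∈ V) →
      ∃ t, ∀ i, z i / z (Sum.inl t) ∈ V := by
    intro V hV
    obtain ⟨t, E', ψ, ht⟩ := h.pb.cv V hV
    refine ⟨t, fun i => ?_⟩
    have h3 := ht.mo (hz t i)
    rw [psi_zero ht.2.1 ht.2.2.1] at h3
    rw [← V.valuation_le_one_iff]
    exact (pow_le_one_iff_of_nonneg zero_le ht.1.ne').1 h3
  obtain ⟨t₀, -⟩ := hcv ⊤ (fun _ _ => trivial)
  have hne : Nonempty {i // z i ≠ 0} := ⟨⟨Sum.inl t₀, hz0 t₀⟩⟩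
  have : Fintype {i // z i ≠ 0} := Fintype.ofFinite _
  obtain ⟨l, hl⟩ : ∃ l, Fintype.card {i // z i ≠ 0} = l + 1 :=
    ⟨Fintype.card {i // z i ≠ 0} - 1, by have := Fintype.card_pos_iff.mpr hne; omega⟩
  let e : Fin (l + 1) ≃ {i // z i ≠ 0} := (Fintype.equivFinOfCardEq hl).symm
  let w : Fin (l + 1) → L := fun n => ⟨z (e n), hzL _⟩
  have hw : ∀ n, w n ≠ 0 := fun n h0 => (e n).2 (congrArg Subtype.val h0)
  have hwval : ∀ n, ((w n : L) : K) = z (e n) := fun n => rfl
  set A : Subalgebra k L := A₀.comap L.val with hA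
  have hAmap : A.map L.val = A₀ := by
    apply le_antisymm
    · rintro _ ⟨x, hx, rfl⟩
      exact hx
    · intro x hx
      exact ⟨⟨x, hA₀L x hx⟩, hx, rfl⟩
  -- the charts in `K`
  have hmap : ∀ m, (ch A w m).map L.val =
      A₀ ⊔ Algebra.adjoin k (Set.range fun i => z i / z (e m)) := by
    intro m
    unfold ch
    rw [Algebra.map_sup, hAmap, AlgHom.map_adjoin]
    congr 1
    apply le_antisymm
    · refine Algebra.adjoin_mono ?_
      rintro _ ⟨_, ⟨n, rfl⟩, rfl⟩
      exact ⟨e n, rfl⟩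
    · refine Algebra.adjoin_le ?_
      rintro _ ⟨i, rfl⟩
      by_cases hi : z i = 0
      · simp only [hi, zero_div]
        exact Subalgebra.zero_mem _
      · refine Algebra.subset_adjoin ⟨w (e.symm ⟨i, hi⟩) / w m, ⟨_, rfl⟩, ?_⟩
        change ((w (e.symm ⟨i, hi⟩) : L) : K) / ((w m : L) : K) = _
        rw [hwval, hwval, Equiv.apply_symm_apply]
  have hch : ∀ t, A₀ ⊔ Algebra.adjoin k (Set.range fun i => z i / z (Sum.inl t)) = d0 (C t) := by
    intro t
    apply le_antisymm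
    · refine sup_le ?_ ?_
      · intro x hx
        obtain ⟨a, ha⟩ := h.pb.aa t
        exact (ha x (hA₀W a x hx)).1
      · rw [Algebra.adjoin_le_iff]
        rintro _ ⟨i, rfl⟩
        exact hz t i
    · refine le_trans ?_ le_sup_right
      rw [← hG t, Algebra.adjoin_le_iff]
      intro x hx
      apply Algebra.subset_adjoin
      refine ⟨Sum.inr ⟨t, x, hx⟩, ?_⟩
      change H t ^ M * x / H t ^ M = x
      have := pow_ne_zero M (h.pb.H0 t)
      field_simp
  refine ⟨l, w, hw, ?_, ?_⟩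
  · intro i
    refine smooth_all L.val A w hw {m | ∃ t, (e m : T ⊕ (Σ t, {x // x ∈ G t})) = Sum.inl t} ?_ ?_ i
    · intro V hV
      obtain ⟨t, hjV⟩ := hcv V (fun x hx => hV ⟨x, hA₀L x hx⟩ hx)
      refine ⟨e.symm ⟨Sum.inl t, hz0 t⟩, ⟨t, ?_⟩, fun n => ?_⟩
      · rw [Equiv.apply_symm_apply]
      · change ((w n : L) : K) / ((w (e.symm ⟨Sum.inl t, hz0 t⟩) : L) : K) ∈ V
        rw [hwval, hwval, Equiv.apply_symm_apply]
        exact hjV _
    · rintro m ⟨t, hm⟩
      have h1 : Algebra.Smooth k (d0 (C t)) := smooth_d0 (h.sm t)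
      have h2 : (ch A w m).map L.val = d0 (C t) := by
        rw [hmap m, hm, hch t]
      have e2 : ch A w m ≃ₐ[k] d0 (C t) :=
        (Subalgebra.equivMapOfInjective (ch A w m) L.val L.val.injective).trans
          (Subalgebra.equivOfEq _ _ h2)
      exact Algebra.Smooth.of_equiv e2.symm
  · rw [eq_top_iff]
    intro x _
    obtain ⟨a, ha⟩ := h.pb.aa t₀
    obtain ⟨y, hy, y', hy', hy0, hxy⟩ := hW a x x.2
    set m := e.symm ⟨Sum.inl t₀, hz0 t₀⟩ with hm
    have hem : (e m : T ⊕ (Σ t, {x // x ∈ G t})) = Sum.inl t₀ := by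
      rw [hm, Equiv.apply_symm_apply]
    have hle : ch A w m ≤
        (IntermediateField.adjoin k ((A : Set L) ∪ Set.range fun j => w j / w 0)).toSubalgebra := by
      refine sup_le ?_ (Algebra.adjoin_le ?_)
      · intro v hv
        exact IntermediateField.subset_adjoin _ _ (Or.inl hv)
      · rintro _ ⟨n, rfl⟩
        have h1 : w n / w m = (w n / w 0) / (w m / w 0) := by
          have := hw 0
          have := hw m
          field_simp
        change w n / w m ∈ IntermediateField.adjoin k ((A : Set L) ∪ Set.range fun j => w j / w 0)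
        rw [h1]
        exact div_mem (IntermediateField.subset_adjoin _ _ (Or.inr ⟨n, rfl⟩))
          (IntermediateField.subset_adjoin _ _ (Or.inr ⟨m, rfl⟩))
    have hlift : ∀ y ∈ W a,
        ∃ v ∈ IntermediateField.adjoin k ((A : Set L) ∪ Set.range fun j => w j / w 0),
        (v : K) = y := by
      intro y hy
      have h2 : y ∈ d0 (C t₀) := (ha y hy).1
      rw [← hch t₀, ← hem, ← hmap m] at h2
      obtain ⟨v, hv, hvy⟩ := h2
      exact ⟨v, hle hv, hvy⟩
    obtain ⟨v, hv, hvy⟩ := hlift y hy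
    obtain ⟨v', hv', hvy'⟩ := hlift y' hy'
    have h3 : x = v / v' := by
      apply Subtype.ext
      rw [hxy, ← hvy, ← hvy']
      rfl
    rw [h3]
    exact div_mem hv hv'

end Pool.Agent.W469.WR.Mb
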